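import Pool.Agent.R48.CR.Hh

/-!
# MP_b43b3b_co: replacing cycle reversal sequences by 3-cycle reversals

Every transfinite cycle reversal sequence of a tournament of arbitrary cardinality can be replaced
by one that consists of 3-cycles and has the same result.
-/

namespace Pool.Agent.Results.MP_b43b3b_co.ThreeCycles

universe u

variable {V : Type u}

/-- `D` is a tournament: there are no loops, and exactly one of `uv`, `vu` is an arc for all
distinct `u, v`. -/
def Tournament (D : V → V → Prop) : Prop :=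
  (∀ u, ¬ D u u) ∧ ∀ u v, u ≠ v → (D u v ∧ ¬ D v u) ∨ (D v u ∧ ¬ D u v)

/-- The arcs of the cyclically read list `[v₀, …, vₙ₋₁]`: the pairs `(v₀,v₁), …, (vₙ₋₂,vₙ₋₁)` and
`(vₙ₋₁,v₀)`. -/
def cycArcs (l : List V) : List (V × V) := l.zip (l.rotate 1)

/-- `l` is a (finite) directed cycle of `D`: at least three vertices, pairwise distinct, and all the
cyclically consecutive pairs are arcs of `D`. -/
def IsDirCycle (D : V → V → Prop) (l : List V) : Prop :=
  3 ≤ l.length ∧ l.Nodup ∧ ∀ p ∈ cycArcs l, D p.1 p.2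

/-- `D^C`: each arc `uv` of the cycle `l` is replaced by `vu`. -/
def reverse (D : V → V → Prop) (l : List V) : V → V → Prop :=
  fun u v => (D u v ∧ (u, v) ∉ cycArcs l) ∨ (v, u) ∈ cycArcs l

/-- The edge `uv` lies in the cycle `l`. -/
def HasEdge (l : List V) (u v : V) : Prop := (u, v) ∈ cycArcs l ∨ (v, u) ∈ cycArcs l

/-- `R = lim_{ξ<ζ} Ds ξ`: each pair is oriented in `R` as in all `Ds ξ` from some `ν < ζ` on. -/
def IsLimit (ζ : Ordinal.{u}) (Ds : Ordinal.{u} → V → V → Prop) (R : V → V → Prop) : Prop :=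
  ∀ u v, ∃ ν < ζ, ∀ ξ, ν ≤ ξ → ξ < ζ → (Ds ξ u v ↔ R u v)

/-- `RS D α C R`: the sequence of cycles `(C ξ)_{ξ<α}` belongs to `rs(D)` and its result is `R`. -/
inductive RS (D : V → V → Prop) : Ordinal.{u} → (Ordinal.{u} → List V) → (V → V → Prop) → Prop
  /-- the empty sequence is in `rs(D)` and its result is `D` -/
  | empty (C : Ordinal.{u} → List V) : RS D 0 C D
  /-- a directed cycle of the result is appended and reversed -/
  | append {α : Ordinal.{u}} {C : Ordinal.{u} → List V} {R : V → V → Prop} :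
      RS D α C R → IsDirCycle R (C α) → RS D (α + 1) C (reverse R (C α))
  /-- limit step: all proper initial segments are in `rs(D)`, with results `Ds ξ`, and the sequence
  is locally finite -/
  | limit {ζ : Ordinal.{u}} {C : Ordinal.{u} → List V} {Ds : Ordinal.{u} → V → V → Prop}
      {R : V → V → Prop} : Order.IsSuccLimit ζ → (∀ ξ < ζ, RS D ξ C (Ds ξ)) →
      (∀ u v, {ξ | ξ < ζ ∧ HasEdge (C ξ) u v}.Finite) → IsLimit ζ Ds R → RS D ζ C R

open Pool.Agent.R48.CR

lemma tour_of {D : V → V → Prop} (h : Tournament D) : Tour D := by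
  refine ⟨h.1, fun a b hab => ?_⟩
  have := h.2 a b hab
  tauto

lemma hasEdge_iff (l : List V) (a b : V) : HasEdge l a b ↔ s(a, b) ∈ E l := by
  constructor
  · rintro (h | h)
    · exact ⟨_, h, rfl⟩
    · exact ⟨_, h, Sym2.eq_swap⟩
  · rintro ⟨⟨c, d⟩, hp, he⟩
    rcases Sym2.eq_iff.1 he with ⟨rfl, rfl⟩ | ⟨rfl, rfl⟩
    · exact Or.inl hp
    · exact Or.inr hp

lemma reverse_eq {R : V → V → Prop} (hR : Tour R) {l : List V}
    (hl : ∀ p ∈ cycArcs l, R p.1 p.2) : reverse R l = fl R (E l) := by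
  funext a b
  have hE := hasEdge_iff l a b
  unfold HasEdge at hE
  simp only [reverse, fl, eq_iff_iff, ← hE]
  have h1 : (a, b) ∈ cycArcs l → R a b := fun h => hl _ h
  have h2 : (b, a) ∈ cycArcs l → R b a := fun h => hl _ h
  by_cases hab : a = b
  · subst hab
    have := hR.1 a
    tauto
  · have := hR.2 a b hab
    tauto

/-- parity of the number of terms before `ξ` through the edge -/
def PP (C : Ordinal.{u} → List V) (ξ : Ordinal.{u}) : Set (Sym2 V) :=
  {e | Odd (Set.ncard {η | η < ξ ∧ e ∈ E (C η)})}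

lemma PP_succ {C : Ordinal.{u} → List V} {α : Ordinal.{u}}
    (hf : ∀ e, {η | η < α ∧ e ∈ E (C η)}.Finite) : PP C (α + 1) = symmDiff (PP C α) (E (C α)) := by
  ext e
  rw [symmDiff_mem]
  unfold PP
  rw [Set.mem_ofPred_eq, Set.mem_ofPred_eq]
  by_cases he : e ∈ E (C α)
  · have : {η | η < α + 1 ∧ e ∈ E (C η)} = insert α {η | η < α ∧ e ∈ E (C η)} := by
      ext η
      simp only [Set.mem_ofPred_eq, Set.mem_insert_iff]
      rw [← Order.succ_eq_add_one, Order.lt_succ_iff, le_iff_eq_or_lt]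
      constructor
      · rintro ⟨rfl | h1, h2⟩
        · exact Or.inl rfl
        · exact Or.inr ⟨h1, h2⟩
      · rintro (rfl | ⟨h1, h2⟩)
        · exact ⟨Or.inl rfl, he⟩
        · exact ⟨Or.inr h1, h2⟩
    rw [this, Set.ncard_insert_of_notMem _ (hf e), Nat.odd_add_one]
    · simp [he]
    · simp
  · have : {η | η < α + 1 ∧ e ∈ E (C η)} = {η | η < α ∧ e ∈ E (C η)} := by
      ext η
      simp only [Set.mem_ofPred_eq]
      rw [← Order.succ_eq_add_one, Order.lt_succ_iff, le_iff_eq_or_lt]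
      constructor
      · rintro ⟨rfl | h1, h2⟩
        · exact absurd h2 he
        · exact ⟨h1, h2⟩
      · rintro ⟨h1, h2⟩
        exact ⟨Or.inr h1, h2⟩
    rw [this]
    simp [he]

lemma fin_succ {C : Ordinal.{u} → List V} {α : Ordinal.{u}} {e : Sym2 V}
    (hf : {η | η < α ∧ e ∈ E (C η)}.Finite) : {η | η < α + 1 ∧ e ∈ E (C η)}.Finite := by
  refine (hf.insert α).subset ?_
  intro η hη
  simp only [Set.mem_ofPred_eq, Set.mem_insert_iff] at hη ⊢
  rw [← Order.succ_eq_add_one, Order.lt_succ_iff, le_iff_eq_or_lt] at hη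
  rcases hη with ⟨rfl | h1, h2⟩
  · exact Or.inl rfl
  · exact Or.inr ⟨h1, h2⟩

/-- eventually constant parity below a limit -/
lemma eventually {C : Ordinal.{u} → List V} {ζ : Ordinal.{u}} (hζ : Order.IsSuccLimit ζ)
    {e : Sym2 V} (hf : {η | η < ζ ∧ e ∈ E (C η)}.Finite) :
    ∃ ν < ζ, ∀ ξ, ν ≤ ξ → ξ < ζ → (e ∈ PP C ξ ↔ e ∈ PP C ζ) := by
  have h0 : (0 : Ordinal.{u}) < ζ := by
    rcases eq_or_ne ζ 0 with h | h
    · subst h
      exact absurd hζ.1 (by simp)
    · exact pos_iff_ne_zero.2 h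
  have hν : ∃ ν < ζ, ∀ η ∈ {η | η < ζ ∧ e ∈ E (C η)}, η < ν := by
    have : ∀ s : Set Ordinal.{u}, s.Finite → (∀ η ∈ s, η < ζ) → ∃ ν < ζ, ∀ η ∈ s, η < ν := by
      intro s hs
      induction s, hs using Set.Finite.induction_on with
      | empty => exact fun _ => ⟨0, h0, fun η h => absurd h (Set.notMem_empty _)⟩
      | @insert a t _ _ ih =>
        intro h
        obtain ⟨ν, h1, h2⟩ := ih (fun η hη => h η (Set.mem_insert_of_mem _ hη))
        have ha := h a (Set.mem_insert _ _)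
        refine ⟨max ν (Order.succ a), max_lt h1 (hζ.succ_lt ha), ?_⟩
        intro η hη
        rcases Set.mem_insert_iff.1 hη with rfl | hη
        · exact lt_max_of_lt_right (Order.lt_succ _)
        · exact lt_max_of_lt_left (h2 η hη)
    exact this _ hf (fun η hη => hη.1)
  obtain ⟨ν, h1, h2⟩ := hν
  refine ⟨ν, h1, fun ξ h3 h4 => ?_⟩
  have : {η | η < ξ ∧ e ∈ E (C η)} = {η | η < ζ ∧ e ∈ E (C η)} := by
    ext η
    constructor
    · rintro ⟨h5, h6⟩
      exact ⟨h5.trans h4, h6⟩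
    · rintro ⟨h5, h6⟩
      exact ⟨(h2 η ⟨h5, h6⟩).trans_le h3, h6⟩
  unfold PP
  rw [Set.mem_ofPred_eq, Set.mem_ofPred_eq, this]

lemma tr_in {D : V → V → Prop} (hD : Tour D) {α : Ordinal.{u}} {C : Ordinal.{u} → List V}
    {R : V → V → Prop} (h : RS D α C R) :
    (∀ ξ < α, 3 ≤ (C ξ).length ∧ (C ξ).Nodup) ∧ (∀ e, {ξ | ξ < α ∧ e ∈ E (C ξ)}.Finite) ∧
      (∀ ξ < α, ∀ p ∈ arcs (C ξ), fl D (PP C ξ) p.1 p.2) ∧ R = fl D (PP C α) := by
  induction h with
  | empty C =>
    refine ⟨fun ξ h => absurd h (by simp), fun e => ?_, fun ξ h => absurd h (by simp), ?_⟩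
    · have : {ξ : Ordinal.{u} | ξ < 0 ∧ e ∈ E (C ξ)} = ∅ := by ext; simp
      rw [this]; exact Set.finite_empty
    · have : PP C 0 = ∅ := by
        ext e
        have : {ξ : Ordinal.{u} | ξ < 0 ∧ e ∈ E (C ξ)} = ∅ := by ext; simp
        unfold PP
        rw [Set.mem_ofPred_eq, this]
        simp
      rw [this, fl_empty hD.1]
  | @append α C R h1 h2 ih =>
    obtain ⟨i1, i2, i3, i4⟩ := ih
    have hlt : ∀ ξ : Ordinal.{u}, ξ < α + 1 → ξ = α ∨ ξ < α := by
      intro ξ hξ
      rw [← Order.succ_eq_add_one, Order.lt_succ_iff, le_iff_eq_or_lt] at hξ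
      exact hξ
    refine ⟨?_, fun e => fin_succ (i2 e), ?_, ?_⟩
    · intro ξ hξ
      rcases hlt ξ hξ with rfl | hξ
      · exact ⟨h2.1, h2.2.1⟩
      · exact i1 ξ hξ
    · intro ξ hξ
      rcases hlt ξ hξ with rfl | hξ
      · rw [← i4]
        exact h2.2.2
      · exact i3 ξ hξ
    · have hR : Tour R := by rw [i4]; exact tour_fl hD _
      rw [reverse_eq hR h2.2.2, PP_succ i2, ← fl_fl, ← i4]
  | @limit ζ C Ds R hζ h1 h2 h3 ih =>
    have hfin : ∀ e, {ξ | ξ < ζ ∧ e ∈ E (C ξ)}.Finite := by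
      intro e
      induction e using Sym2.ind with
      | _ a b =>
      have := h2 a b
      simpa only [hasEdge_iff] using this
    refine ⟨?_, hfin, ?_, ?_⟩
    · intro ξ hξ
      exact (ih (Order.succ ξ) (hζ.succ_lt hξ)).1 ξ (Order.lt_succ _)
    · intro ξ hξ
      exact (ih (Order.succ ξ) (hζ.succ_lt hξ)).2.2.1 ξ (Order.lt_succ _)
    · funext a b
      obtain ⟨ν1, hν1, h4⟩ := h3 a b
      obtain ⟨ν2, hν2, h5⟩ := eventually hζ (hfin s(a, b))
      have hm : max ν1 ν2 < ζ := max_lt hν1 hν2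
      have h6 := h4 _ (le_max_left _ _) hm
      have h7 := h5 _ (le_max_right _ _) hm
      have h8 := (ih _ hm).2.2.2
      rw [eq_iff_iff, ← h6, h8]
      unfold fl
      rw [h7]

/-- from an abstract well-ordered sequence to `RS` -/
lemma tr_out {D : V → V → Prop} (hD : Tour D) {κ : Type u} [LinearOrder κ] [WellFoundedLT κ]
    (c : κ → List V) (hfin : ∀ e, {k | e ∈ E (c k)}.Finite)
    (hc : ∀ k, IsDCycle (fl D {e | Odd (Set.ncard {j | j < k ∧ e ∈ E (c j)})}) (c k) ∧
      (c k).length = 3) :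
    ∃ (β : Ordinal.{u}) (C' : Ordinal.{u} → List V),
      RS D β C' (fl D {e | Odd (Set.ncard {k | e ∈ E (c k)})}) ∧ ∀ ξ < β, (C' ξ).length = 3 := by
  classical
  let r : κ → κ → Prop := (· < ·)
  let ty : κ → Ordinal.{u} := fun k => Ordinal.typein r k
  have htyinj : Function.Injective ty := fun a b h => (Ordinal.typein_inj r).1 h
  have htylt : ∀ a b, ty a < ty b ↔ a < b := fun a b => Ordinal.typein_lt_typein r
  let C' : Ordinal.{u} → List V := fun ξ =>
    if h : ξ < Ordinal.type r then c (Ordinal.enum r ⟨ξ, h⟩) else []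
  have hC' : ∀ k, C' (ty k) = c k := by
    intro k
    have hk : ty k < Ordinal.type r := Ordinal.typein_lt_type r k
    simp only [C', hk, dif_pos]
    congr 1
    exact Ordinal.enum_typein r k
  have hsurj : ∀ ξ < Ordinal.type r, ∃ k, ty k = ξ := by
    intro ξ hξ
    exact ⟨Ordinal.enum r ⟨ξ, hξ⟩, Ordinal.typein_enum r hξ⟩
  have himg : ∀ γ ≤ Ordinal.type r, ∀ e, {η | η < γ ∧ e ∈ E (C' η)} =
      ty '' {k | ty k < γ ∧ e ∈ E (c k)} := by
    intro γ hγ e
    ext η
    constructor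
    · rintro ⟨h1, h2⟩
      obtain ⟨k, rfl⟩ := hsurj η (h1.trans_le hγ)
      rw [hC'] at h2
      exact ⟨k, ⟨h1, h2⟩, rfl⟩
    · rintro ⟨k, ⟨h1, h2⟩, rfl⟩
      refine ⟨h1, ?_⟩
      rw [hC']; exact h2
  have hfin' : ∀ γ ≤ Ordinal.type r, ∀ e, {η | η < γ ∧ e ∈ E (C' η)}.Finite := by
    intro γ hγ e
    rw [himg γ hγ]
    exact ((hfin e).subset (fun k hk => hk.2)).image _
  have main : ∀ γ ≤ Ordinal.type r, RS D γ C' (fl D (PP C' γ)) := by
    intro γ
    induction γ using Ordinal.limitRecOn with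
    | zero =>
      intro _
      have h1 : PP C' 0 = ∅ := by
        ext e
        have : {ξ : Ordinal.{u} | ξ < 0 ∧ e ∈ E (C' ξ)} = ∅ := by ext; simp
        unfold PP
        rw [Set.mem_ofPred_eq, this]
        simp
      rw [h1, fl_empty hD.1]
      exact RS.empty C'
    | add_one γ ih =>
      intro hγ
      have hγ' : γ < Ordinal.type r := lt_of_lt_of_le (by
        rw [← Order.succ_eq_add_one]; exact Order.lt_succ γ) hγ
      obtain ⟨k, rfl⟩ := hsurj γ hγ'
      have h1 := ih hγ'.le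
      have hPP : PP C' (ty k) = {e | Odd (Set.ncard {j | j < k ∧ e ∈ E (c j)})} := by
        ext e
        unfold PP
        rw [Set.mem_ofPred_eq, Set.mem_ofPred_eq, himg _ hγ'.le,
          Set.ncard_image_of_injective _ htyinj]
        simp only [htylt]
      have hcyc : IsDirCycle (fl D (PP C' (ty k))) (C' (ty k)) := by
        rw [hC', hPP]
        exact ⟨(hc k).1.2.1, (hc k).1.1, (hc k).1.2.2⟩
      have h2 := RS.append h1 hcyc
      rw [reverse_eq (tour_fl hD _) hcyc.2.2, fl_fl, ← PP_succ (hfin' _ hγ'.le)] at h2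
      exact h2
    | limit γ hγl ih =>
      intro hγ
      refine RS.limit (Ds := fun ξ => fl D (PP C' ξ)) hγl (fun ξ hξ => ih ξ hξ (hξ.le.trans hγ)) ?_ ?_
      · intro a b
        simpa only [hasEdge_iff] using hfin' γ hγ s(a, b)
      · intro a b
        obtain ⟨ν, h1, h2⟩ := eventually hγl (hfin' γ hγ s(a, b))
        refine ⟨ν, h1, fun ξ h3 h4 => ?_⟩
        have := h2 ξ h3 h4
        change fl D (PP C' ξ) a b ↔ fl D (PP C' γ) a b
        unfold fl
        rw [this]
  refine ⟨Ordinal.type r, C', ?_, ?_⟩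
  · have h1 := main _ le_rfl
    have h2 : PP C' (Ordinal.type r) = {e | Odd (Set.ncard {k | e ∈ E (c k)})} := by
      ext e
      unfold PP
      rw [Set.mem_ofPred_eq, Set.mem_ofPred_eq, himg _ le_rfl,
        Set.ncard_image_of_injective _ htyinj]
      have : {k | ty k < Ordinal.type r ∧ e ∈ E (c k)} = {k | e ∈ E (c k)} := by
        ext k
        simp only [Set.mem_ofPred_eq, and_iff_right_iff_imp]
        intro _
        exact Ordinal.typein_lt_type r k
      rw [this]
    rw [h2] at h1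
    exact h1
  · intro ξ hξ
    obtain ⟨k, rfl⟩ := hsurj ξ hξ
    rw [hC']
    exact (hc k).2

/-- **MP_b43b3b_co (Q1, answer yes).** For every tournament `D` on a vertex set of any cardinality
and every reversal sequence `C ∈ rs(D)` with result `R` there is a reversal sequence of `D` that
consists of 3-cycles and has the same result `R`. -/
theorem result (D : V → V → Prop) (hD : Tournament D) (α : Ordinal.{u})
    (C : Ordinal.{u} → List V) (R : V → V → Prop) (h : RS D α C R) :
    ∃ (β : Ordinal.{u}) (C' : Ordinal.{u} → List V), RS D β C' R ∧ ∀ ξ < β, (C' ξ).length = 3 := by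
  have hT := tour_of hD
  obtain ⟨h1, h2, h3, h4⟩ := tr_in hT h
  let val : α.ToType → Ordinal.{u} := fun i => (Ordinal.ToType.mk.symm i).1
  have hval : ∀ i, val i < α := fun i => (Ordinal.ToType.mk.symm i).2
  have hvlt : ∀ i j, val i < val j ↔ i < j := by
    intro i j
    have := (Ordinal.ToType.mk (o := α)).symm.lt_iff_lt (x := i) (y := j)
    rw [← this]
    rfl
  have hvinj : Function.Injective val := by
    intro i j hij
    exact (Ordinal.ToType.mk (o := α)).symm.injective (Subtype.ext hij)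
  have hvs : ∀ η < α, ∃ i, val i = η := by
    intro η hη
    refine ⟨Ordinal.ToType.mk ⟨η, hη⟩, ?_⟩
    simp [val]
  have himg : ∀ i, ∀ e, {η | η < val i ∧ e ∈ E (C η)} = val '' {j | j < i ∧ e ∈ E (C (val j))} := by
    intro i e
    ext η
    constructor
    · rintro ⟨h5, h6⟩
      obtain ⟨j, rfl⟩ := hvs η (h5.trans (hval i))
      exact ⟨j, ⟨(hvlt _ _).1 h5, h6⟩, rfl⟩
    · rintro ⟨j, ⟨h5, h6⟩, rfl⟩
      exact ⟨(hvlt _ _).2 h5, h6⟩
  have himg2 : ∀ e, {η | η < α ∧ e ∈ E (C η)} = val '' {j | e ∈ E (C (val j))} := by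
    intro e
    ext η
    constructor
    · rintro ⟨h5, h6⟩
      obtain ⟨j, rfl⟩ := hvs η h5
      exact ⟨j, h6, rfl⟩
    · rintro ⟨j, h6, rfl⟩
      exact ⟨hval j, h6⟩
  let X : Ctx V α.ToType :=
    { D := D
      C := fun i => C (val i)
      tD := hT
      nd := fun i => (h1 _ (hval i)).2
      len := fun i => (h1 _ (hval i)).1
      lf := fun e => by
        have h5 := h2 e
        rw [himg2] at h5
        exact Set.Finite.of_finite_image h5 hvinj.injOn
      dir := fun i p hp => by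
        have h5 := h3 _ (hval i) p hp
        have : PP C (val i) = {e | Odd (Set.ncard {j | j < i ∧ e ∈ E (C (val j))})} := by
          ext e
          unfold PP
          rw [Set.mem_ofPred_eq, Set.mem_ofPred_eq, himg, Set.ncard_image_of_injective _ hvinj]
        rw [this] at h5
        exact h5 }
  obtain ⟨κ, lin, wf, c, k1, k2, k3⟩ := concat X
  obtain ⟨β, C', r1, r2⟩ := tr_out hT c k1 k2
  refine ⟨β, C', ?_, r2⟩
  have : {e | Odd (Set.ncard {k | e ∈ E (c k)})} = PP C α := by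
    ext e
    unfold PP
    rw [Set.mem_ofPred_eq, Set.mem_ofPred_eq, k3, himg2, Set.ncard_image_of_injective _ hvinj]
  rw [this, ← h4] at r1
  exact r1

end Pool.Agent.Results.MP_b43b3b_co.ThreeCycles
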